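import Mathlib
import Pool.Agent.Helper79.GL4.GoalsA

/-! BR1: transitivity on points and on hyperplanes are equivalent. -/

set_option linter.unusedVariables false
set_option linter.unusedSectionVars false
set_option linter.style.haveILetI false

namespace GL4.H31br1

open Module Submodule

section
variable {F : Type} [Field F] {V : Type} [AddCommGroup V] [Module F V]

/-- eigenspace -/
def eig (g : V →ₗ[F] V) (c : F) : Submodule F V := LinearMap.ker (g - c • LinearMap.id)

theorem mem_eig {g : V →ₗ[F] V} {c : F} {v : V} : v ∈ eig g c ↔ g v = c • v := by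
  simp [eig, sub_eq_zero]

variable [Finite F] [FiniteDimensional F V]

theorem card_fix (g : V ≃ₗ[F] V) :
    Nat.card {x : Submodule F V // Pt x ∧ im g x = x}
      = Nat.card (Σ c : F, {x : Submodule F V // Pt x ∧ x ≤ eig (g : V →ₗ[F] V) c}) := by
  have hfix : ∀ (c : F) (x : Submodule F V), x ≤ eig (g : V →ₗ[F] V) c → im g x = x := by
    intro c x hx
    refine im_eq_of_le ?_
    rintro w ⟨v, hv, rfl⟩
    have h1 := mem_eig.1 (hx hv)
    rw [h1]
    exact x.smul_mem c hv
  symm
  refine Nat.card_congr (Equiv.ofBijective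
    (fun y : Σ c : F, {x : Submodule F V // Pt x ∧ x ≤ eig (g : V →ₗ[F] V) c} =>
      (⟨y.2.1, y.2.2.1, hfix y.1 y.2.1 y.2.2.2⟩ : {x : Submodule F V // Pt x ∧ im g x = x})) ?_)
  constructor
  · rintro ⟨c, x, hx, hxc⟩ ⟨c', x', hx', hxc'⟩ h
    have h1 : x = x' := congrArg Subtype.val h
    subst h1
    have h2 : c = c' := by
      obtain ⟨v, hv0, hv⟩ := hx.exists_span
      have hvx : v ∈ x := by rw [hv]; exact mem_span_singleton_self v
      have h3 := mem_eig.1 (hxc hvx)
      have h4 := mem_eig.1 (hxc' hvx)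
      rw [h3] at h4
      exact smul_left_injective F hv0 h4
    subst h2
    rfl
  · rintro ⟨x, hx, hgx⟩
    obtain ⟨v, hv0, hv⟩ := hx.exists_span
    have hvx : v ∈ x := by rw [hv]; exact mem_span_singleton_self v
    have h1 : g v ∈ x := by
      rw [← hgx]; exact apply_mem_im hvx
    rw [hv, mem_span_singleton] at h1
    obtain ⟨c, hc⟩ := h1
    refine ⟨⟨c, x, hx, ?_⟩, rfl⟩
    rw [hv, span_singleton_le_iff_mem, mem_eig]
    exact hc.symm

theorem card_fix' [Fintype F] (g : V ≃ₗ[F] V) :
    Nat.card {x : Submodule F V // Pt x ∧ im g x = x}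
      = ∑ c : F, br (Nat.card F) (finrank F (eig (g : V →ₗ[F] V) c)) := by
  rw [card_fix, Nat.card_sigma]
  refine Finset.sum_congr rfl ?_
  intro c _
  exact card_pts_le _

theorem finrank_eig_dual (g : V ≃ₗ[F] V) (c : F) :
    finrank F (eig (g.dualMap : Dual F V →ₗ[F] Dual F V) c)
      = finrank F (eig (g : V →ₗ[F] V) c) := by
  have h1 : (g.dualMap : Dual F V →ₗ[F] Dual F V) - c • LinearMap.id
      = ((g : V →ₗ[F] V) - c • LinearMap.id).dualMap := by
    ext f v
    simp
  have h2 := LinearMap.finrank_range_add_finrank_ker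
    (((g : V →ₗ[F] V) - c • LinearMap.id).dualMap)
  have h3 := LinearMap.finrank_range_add_finrank_ker ((g : V →ₗ[F] V) - c • LinearMap.id)
  rw [LinearMap.finrank_range_dualMap_eq_finrank_range, Subspace.dual_finrank_eq] at h2
  rw [eig, h1, eig]
  omega

theorem im_dual (g : V ≃ₗ[F] V) (H : Submodule F V) :
    im g.dualMap (im g H).dualAnnihilator = H.dualAnnihilator := by
  ext f
  constructor
  · rintro ⟨f', hf', rfl⟩
    rw [SetLike.mem_coe, mem_dualAnnihilator] at hf'
    rw [mem_dualAnnihilator]
    intro w hw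
    exact hf' (g w) (apply_mem_im hw)
  · intro hf
    rw [mem_dualAnnihilator] at hf
    refine ⟨g.symm.dualMap f, ?_, ?_⟩
    · rw [SetLike.mem_coe, mem_dualAnnihilator]
      rintro _ ⟨w, hw, rfl⟩
      have : g.symm.dualMap f (g w) = f w := by simp
      exact this.trans (hf w hw)
    · ext v
      simp

theorem card_fix_hy (g : V ≃ₗ[F] V) :
    Nat.card {H : Submodule F V // Hy H ∧ im g H = H}
      = Nat.card {x : Submodule F (Dual F V) // Pt x ∧ im g.dualMap x = x} := by
  have hkey : ∀ H : Submodule F V, im g H = H ↔ im g.dualMap H.dualAnnihilator = H.dualAnnihilator := by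
    intro H
    constructor
    · intro h
      have := im_dual g H
      rwa [h] at this
    · intro h
      have h1 := im_dual g H
      rw [← h] at h1
      rw [im_inj] at h1
      exact Subspace.dualAnnihilator_inj.1 h1
  refine Nat.card_congr ?_
  refine { toFun := fun x => ⟨x.1.dualAnnihilator, x.2.1.ann, (hkey _).1 x.2.2⟩
           invFun := fun x => ⟨x.1.dualCoannihilator, x.2.1.coann, (hkey _).2 ?_⟩
           left_inv := ?_, right_inv := ?_ }
  · rw [Subspace.dualCoannihilator_dualAnnihilator_eq]
    exact x.2.2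
  · rintro ⟨x, hx, hxU⟩
    exact Subtype.ext Subspace.dualAnnihilator_dualCoannihilator_eq
  · rintro ⟨x, hx, hxU⟩
    exact Subtype.ext Subspace.dualCoannihilator_dualAnnihilator_eq

/-- a linear automorphism fixes as many points as hyperplanes -/
theorem fix_eq (g : V ≃ₗ[F] V) :
    Nat.card {x : Submodule F V // Pt x ∧ im g x = x}
      = Nat.card {H : Submodule F V // Hy H ∧ im g H = H} := by
  classical
  have : Fintype F := Fintype.ofFinite F
  rw [card_fix_hy, card_fix', card_fix']
  refine Finset.sum_congr rfl ?_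
  intro c _
  rw [finrank_eig_dual]

/-- the action of `G` on an invariant family of subspaces -/
@[reducible] def famAct (G : Subgroup (V ≃ₗ[F] V)) (P : Submodule F V → Prop)
    (hP : ∀ (g : V ≃ₗ[F] V) (x : Submodule F V), P x → P (im g x)) :
    MulAction G {x : Submodule F V // P x} where
  smul g x := ⟨im (g : V ≃ₗ[F] V) x.1, hP _ _ x.2⟩
  one_smul x := Subtype.ext (im_one x.1)
  mul_smul g h x := Subtype.ext (im_mul _ _ x.1)

theorem trans_iff (G : Subgroup (V ≃ₗ[F] V)) (P : Submodule F V → Prop)
    (hP : ∀ (g : V ≃ₗ[F] V) (x : Submodule F V), P x → P (im g x)) :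
    (∀ x y : Submodule F V, P x → P y → ∃ g ∈ G, im g x = y) ↔
      ∑ᶠ g : G, Nat.card {x : Submodule F V // P x ∧ im (g : V ≃ₗ[F] V) x = x} ≤ Nat.card G := by
  classical
  letI := famAct G P hP
  haveI : Fintype G := Fintype.ofFinite G
  haveI : Fintype {x : Submodule F V // P x} := Fintype.ofFinite _
  have h1 := MulAction.sum_card_fixedBy_eq_card_orbits_mul_card_group G {x : Submodule F V // P x}
  have h2 : ∑ᶠ g : G, Nat.card {x : Submodule F V // P x ∧ im (g : V ≃ₗ[F] V) x = x}
      = ∑ g : G, Fintype.card (MulAction.fixedBy {x : Submodule F V // P x} g) := by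
    rw [finsum_eq_sum_of_fintype]
    refine Finset.sum_congr rfl ?_
    intro g _
    rw [← Nat.card_eq_fintype_card]
    refine Nat.card_congr ?_
    refine { toFun := fun x => ⟨⟨x.1, x.2.1⟩, Subtype.ext x.2.2⟩
             invFun := fun x => ⟨x.1.1, x.1.2, congrArg Subtype.val x.2⟩
             left_inv := fun x => rfl, right_inv := fun x => rfl }
  rw [h2, h1, Nat.card_eq_fintype_card]
  have h3 : 0 < Fintype.card G := Fintype.card_pos
  have h4 : (Fintype.card (Quotient (MulAction.orbitRel G {x : Submodule F V // P x})) *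
      Fintype.card G ≤ Fintype.card G) ↔
      Fintype.card (Quotient (MulAction.orbitRel G {x : Submodule F V // P x})) ≤ 1 := by
    constructor
    · intro h
      by_contra hc
      push Not at hc
      nlinarith
    · intro h
      nlinarith
  rw [h4, Fintype.card_le_one_iff_subsingleton]
  constructor
  · intro h
    refine ⟨?_⟩
    intro a b
    induction a using Quotient.inductionOn with
    | h x =>
    induction b using Quotient.inductionOn with
    | h y =>
    apply Quotient.sound
    obtain ⟨g, hg, hgx⟩ := h y.1 x.1 y.2 x.2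
    exact ⟨⟨g, hg⟩, Subtype.ext hgx⟩
  · intro h x y hx hy
    have h5 : (Quotient.mk (MulAction.orbitRel G {x : Submodule F V // P x}) ⟨y, hy⟩)
        = Quotient.mk (MulAction.orbitRel G {x : Submodule F V // P x}) ⟨x, hx⟩ :=
      Subsingleton.elim _ _
    obtain ⟨⟨g, hg⟩, hgx⟩ := Quotient.exact h5
    exact ⟨g, hg, congrArg Subtype.val hgx⟩

end

theorem br1 : BR1 := by
  intro F _ _ V _ _ _ G
  have h1 := trans_iff G Pt (fun g x hx => hx.im)
  have h2 := trans_iff G Hy (fun g x hx => hx.im)
  rw [PtTrans, HyTrans, h1, h2]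
  have h3 : ∀ g : G, Nat.card {x : Submodule F V // Pt x ∧ im (g : V ≃ₗ[F] V) x = x}
      = Nat.card {x : Submodule F V // Hy x ∧ im (g : V ≃ₗ[F] V) x = x} := fun g => fix_eq _
  simp_rw [h3]

end GL4.H31br1

namespace GL4

open Module Submodule

/-- a linear automorphism fixes as many points as hyperplanes -/
theorem fix_eq {F : Type} [Field F] {V : Type} [AddCommGroup V] [Module F V] [Finite F]
    [FiniteDimensional F V] (g : V ≃ₗ[F] V) :
    Nat.card {x : Submodule F V // Pt x ∧ im g x = x}
      = Nat.card {H : Submodule F V // Hy H ∧ im g H = H} := H31br1.fix_eq g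

theorem br1 : BR1 := H31br1.br1

end GL4
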