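import Mathlib
import Pool.Agent.Helper79.GL4.GoalsB

/-! CANN: `N` is canonical and minimal. -/

set_option linter.unusedVariables false

namespace GL4

open Module Submodule

theorem cann : CANN := by
  intro F _ _ W _ _ _ G n N h
  have hnle : ∀ x, Pt x → ¬ N x ≤ x := by
    intro x hx hle
    have h1 := Submodule.finrank_mono hle
    have h2 := h.dimN x hx
    have h3 := h.n1
    rw [Pt] at hx
    omega
  have hmin : ∀ x Z, Pt x → x < Z → (∀ g ∈ G, im g x = x → im g Z = Z) → N x ≤ Z := by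
    intro x Z hx hxZ hZ
    by_contra hc
    obtain ⟨H, hH, hZH, hNH⟩ := exists_hy_not_ge hc
    obtain ⟨H₂, hH₂, hxH₂, hZH₂, hNH₂⟩ :=
      exists_hy_not_ge₂ (T := x) (A := Z) (B := N x) (fun h1 => absurd h1 (not_le_of_gt hxZ))
        (hnle x hx)
    obtain ⟨g, hg, hgx, hgH⟩ := h.trNH x H H₂ hx hH hH₂ (hxZ.le.trans hZH) hxH₂ hNH hNH₂
    apply hZH₂
    have h1 := im_mono g hZH
    rwa [hZ g hg hgx, hgH] at h1
  have hlt : ∀ x, Pt x → x < N x := fun x hx =>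
    lt_of_le_not_ge (h.selfN x hx) (hnle x hx)
  have heq : ∀ x, Pt x → Nc G x = N x := by
    intro x hx
    apply le_antisymm
    · refine sInf_le ⟨hlt x hx, ?_⟩
      intro g hg hgx
      rw [← h.eqN g hg x hx, hgx]
    · refine le_sInf ?_
      rintro Z ⟨hxZ, hZ⟩
      exact hmin x Z hx hxZ hZ
  refine ⟨heq, ?_, hmin⟩
  refine ⟨h.n1, ?_, ?_, ?_, ?_, ?_, ?_⟩
  · intro x hx
    rw [heq x hx]; exact h.dimN x hx
  · intro x hx
    rw [heq x hx]; exact h.selfN x hx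
  · intro x y hx hy hyx
    rw [heq x hx] at hyx
    rw [heq y hy]; exact h.symN x y hx hy hyx
  · intro g hg x hx
    rw [heq x hx, heq _ hx.im]; exact h.eqN g hg x hx
  · intro x y z hx hy hz hyx hzx
    rw [heq x hx] at hyx hzx
    exact h.trN x y z hx hy hz hyx hzx
  · intro x H₁ H₂ hx hH₁ hH₂ hxH₁ hxH₂ hN₁ hN₂
    rw [heq x hx] at hN₁ hN₂
    exact h.trNH x H₁ H₂ hx hH₁ hH₂ hxH₁ hxH₂ hN₁ hN₂

end GL4
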